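import Mathlib

/-!
# The Cauchy-Binet formula
-/

set_option autoImplicit false

namespace Pool.Agent.Helper34.CB

open Matrix

section

variable {α : Type*} [LinearOrder α] [Fintype α]

omit [Fintype α] in
/-- An order embedding of `Fin p` is determined by its range. -/
theorem emb_eq_of_range {p : ℕ} (I J : Fin p ↪o α) (h : Set.range I = Set.range J) : I = J := by
  have h1 : (I : Fin p → α) = J := by
    apply StrictMono.range_inj I.strictMono J.strictMono |>.1
    exact h
  exact DFunLike.coe_injective h1

omit [Fintype α] in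
theorem emb_eq_of_subset {p : ℕ} (I J : Fin p ↪o α) (h : ∀ i, ∃ j, J j = I i) : I = J := by
  classical
  apply emb_eq_of_range
  have h1 : Finset.univ.map I.toEmbedding ⊆ Finset.univ.map J.toEmbedding := by
    intro x hx
    obtain ⟨i, _, rfl⟩ := Finset.mem_map.1 hx
    obtain ⟨j, hj⟩ := h i
    exact Finset.mem_map.2 ⟨j, Finset.mem_univ _, hj⟩
  have h2 := Finset.eq_of_subset_of_card_le h1 (by simp)
  ext x
  have := Finset.ext_iff.1 h2 x
  simpa using this

/-- The sum over injective functions, grouped by their ranges. -/
theorem sum_injective {M : Type*} [AddCommMonoid M] (p : ℕ) (F : (Fin p → α) → M)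
    (hF : ∀ f, ¬ Function.Injective f → F f = 0) :
    ∑ f, F f = ∑ I : Fin p ↪o α, ∑ τ : Equiv.Perm (Fin p), F (I ∘ τ) := by
  classical
  rw [← Finset.sum_product']
  symm
  refine Finset.sum_of_injOn (fun x : (Fin p ↪o α) × Equiv.Perm (Fin p) => (x.1 : Fin p → α) ∘ x.2)
    ?_ ?_ ?_ ?_
  · rintro ⟨I, τ⟩ _ ⟨J, ρ⟩ _ h
    have hI : I = J := by
      apply emb_eq_of_range
      have h1 : Set.range ((I : Fin p → α) ∘ τ) = Set.range ((J : Fin p → α) ∘ ρ) := by
        exact congrArg Set.range h
      rwa [EquivLike.range_comp, EquivLike.range_comp] at h1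
    subst hI
    have : τ = ρ := by
      ext i
      have := congrFun h i
      simp only [Function.comp_apply, EmbeddingLike.apply_eq_iff_eq] at this
      exact congrArg Fin.val this
    rw [this]
  · intro x _
    simp
  · intro f _ hf
    apply hF
    intro hinj
    apply hf
    have hmono : StrictMono (f ∘ Tuple.sort f) :=
      (Tuple.monotone_sort f).strictMono_of_injective (hinj.comp (Tuple.sort f).injective)
    refine ⟨⟨OrderEmbedding.ofStrictMono _ hmono, (Tuple.sort f)⁻¹⟩, by simp, ?_⟩
    funext i
    simp
  · rintro ⟨I, τ⟩ _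
    rfl

/-- **Cauchy-Binet formula.** -/
theorem cauchy_binet {R : Type*} [CommRing R] (p : ℕ) (A : Matrix (Fin p) α R)
    (B : Matrix α (Fin p) R) :
    (A * B).det = ∑ I : Fin p ↪o α, (A.submatrix id I).det * (B.submatrix I id).det := by
  classical
  have h1 : (A * B).det = ∑ f : Fin p → α, (A.submatrix id f).det * ∏ i, B (f i) i := by
    simp only [det_apply', mul_apply, Finset.prod_univ_sum, Finset.mul_sum,
      Fintype.piFinset_univ, Finset.sum_mul]
    rw [Finset.sum_comm]
    refine Finset.sum_congr rfl fun f _ => Finset.sum_congr rfl fun σ _ => ?_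
    rw [Finset.prod_mul_distrib, mul_assoc]
    rfl
  rw [h1, sum_injective p]
  · refine Finset.sum_congr rfl fun I _ => ?_
    have h2 : ∀ τ : Equiv.Perm (Fin p), (A.submatrix id ((I : Fin p → α) ∘ τ)).det =
        ((Equiv.Perm.sign τ : ℤ) : R) * (A.submatrix id I).det := by
      intro τ
      have := Matrix.det_permute' τ (A.submatrix id I)
      rw [← this]
      rfl
    rw [det_apply' (B.submatrix I id), Finset.mul_sum]
    refine Finset.sum_congr rfl fun τ _ => ?_
    rw [h2]
    simp only [Function.comp_apply, submatrix_apply, id_eq]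
    ring
  · intro f hf
    rw [Function.Injective] at hf
    push Not at hf
    obtain ⟨i, j, hij, hne⟩ := hf
    have : (A.submatrix id f).det = 0 := by
      apply Matrix.det_zero_of_column_eq hne
      intro k
      simp [hij]
    rw [this, zero_mul]

end

end Pool.Agent.Helper34.CB
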